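import Pool.Agent.helper71.FT.Spec

/-!
# Row `ft:PGB`: porosity in the past at most scales
-/

open scoped MatrixGroups ContDiff Topology UpperHalfPlane ComplexConjugate
open UpperHalfPlane MeasureTheory Filter Set

set_option autoImplicit false

namespace Pool.Agent.FT

open Pool.Agent.RS
open Pool.Agent.MS (bq BB BA SF pf)
open Pool.Agent.EN (XG MG mkX mkM fl pr)
open Pool.Agent.FS (tp)

noncomputable section

/-- the excluded scales -/
def PGB_B (n T : ℕ) (S : Finset ℕ) : Finset ℕ :=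
  (Finset.range n).filter fun k : ℕ => n < k + T + 2 ∨ ∃ i ∈ S, n ≤ i + k + T + 2 ∧ i + k + 1 ≤ n

lemma PGB_card (n T : ℕ) (S : Finset ℕ) : (PGB_B n T S).card ≤ (T + 2) * (S.card + 1) := by
  classical
  have h1 : PGB_B n T S ⊆ Finset.Ico (n - (T + 1)) n ∪ S.biUnion fun i => Finset.Icc (n - i - (T + 2)) (n - i - 1) := by
    intro k hk
    obtain ⟨hk1, hk2⟩ := Finset.mem_filter.1 hk
    rw [Finset.mem_range] at hk1
    rw [Finset.mem_union, Finset.mem_Ico, Finset.mem_biUnion]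
    rcases hk2 with h | ⟨i, hi, h1, h2⟩
    · left
      constructor <;> omega
    · right
      refine ⟨i, hi, ?_⟩
      rw [Finset.mem_Icc]
      constructor <;> omega
  have h2 : (S.biUnion fun i => Finset.Icc (n - i - (T + 2)) (n - i - 1)).card ≤ S.card * (T + 2) := by
    apply Finset.card_biUnion_le_card_mul
    intro i _
    rw [Nat.card_Icc]
    omega
  have h3 : (Finset.Ico (n - (T + 1)) n).card ≤ T + 2 := by
    rw [Nat.card_Ico]
    omega
  calc (PGB_B n T S).card ≤ _ := Finset.card_le_card h1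
    _ ≤ _ := Finset.card_union_le _ _
    _ ≤ (T + 2) + S.card * (T + 2) := add_le_add h3 h2
    _ = (T + 2) * (S.card + 1) := by ring

lemma PGB_eq (ha : ∀ s t : ℝ, aM (s + t) = aM s * aM t) (hl : ∀ u t : ℝ, lM u * aM t = aM t * lM (Real.exp t * u))
    (g : SL(2, ℝ)) (z τ o t N i m' : ℝ) (h : -N + i = -m') :
    g * nM z * aM τ * lM o * aM (-N) * aM i = g * nM z * aM (-t) * aM (t + τ - m') * lM (Real.exp (-m') * o) := by
  have h1 : aM (-N) * aM i = aM (-m') := by rw [← ha, h]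
  have h2 : aM (-t) * aM (t + τ - m') = aM τ * aM (-m') := by
    rw [← ha, ← ha]
    congr 1
    ring
  calc g * nM z * aM τ * lM o * aM (-N) * aM i = g * nM z * aM τ * (lM o * (aM (-N) * aM i)) := by simp only [mul_assoc]
    _ = g * nM z * (aM τ * aM (-m')) * lM (Real.exp (-m') * o) := by rw [h1, hl]; simp only [mul_assoc]
    _ = _ := by rw [← h2]; simp only [mul_assoc]

theorem PGB_proof (hPOT : POT_stmt) (hEXB : EXB_stmt) (hGLC : RS.GLC_stmt) : PGB_stmt := by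
  classical
  intro Γ O' c0 χ hΓ hO hOn hc0 hχ
  obtain ⟨c1, T, hc1, hc1', hP⟩ := hPOT Γ O' hΓ hO hOn
  have ha : ∀ s t : ℝ, aM (s + t) = aM s * aM t := by
    obtain ⟨-, -, -, -, -, -, -, -, -, -, h, -⟩ := hGLC
    exact h
  have hl : ∀ u t : ℝ, lM u * aM t = aM t * lM (Real.exp t * u) := by
    obtain ⟨-, -, -, -, -, -, -, -, -, -, -, -, -, -, -, -, -, -, h, -⟩ := hGLC
    exact h
  refine ⟨min c0 c1, lt_min hc0 hc1, (min_le_right _ _).trans_lt hc1', fun e he => ?_⟩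
  obtain ⟨θ1, hθ1, hE⟩ := hEXB e he
  obtain ⟨n0, hn0⟩ := exists_nat_ge (2 * ((T : ℝ) + 2) / e)
  refine ⟨min θ1 (e / (2 * ((T : ℝ) + 2))), n0, lt_min hθ1 (by positivity), fun n m hn hm g => ?_⟩
  have hn' : 2 * ((T : ℝ) + 2) ≤ e * n := by
    have h1 : 2 * ((T : ℝ) + 2) / e ≤ n := hn0.trans (by exact_mod_cast hn)
    rw [div_le_iff₀ he] at h1
    linarith
  have hnn : (0 : ℝ) ≤ n := Nat.cast_nonneg n
  have hm1 : (m : ℝ) ≤ θ1 * n := hm.trans (mul_le_mul_of_nonneg_right (min_le_left _ _) hnn)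
  have hm2 : 2 * ((T : ℝ) + 2) * m ≤ e * n := by
    have h1 : (m : ℝ) ≤ e / (2 * ((T : ℝ) + 2)) * n := hm.trans (mul_le_mul_of_nonneg_right (min_le_right _ _) hnn)
    have h2 : 2 * ((T : ℝ) + 2) * m ≤ 2 * ((T : ℝ) + 2) * (e / (2 * ((T : ℝ) + 2)) * n) :=
      mul_le_mul_of_nonneg_left h1 (by positivity)
    refine h2.trans (le_of_eq ?_)
    field_simp
  obtain ⟨ZS, hZS⟩ : ∃ ZS : Finset ℕ → Set ℝ, ZS = fun S => {z : ℝ | ∃ τ o : ℝ, |τ| ≤ 7 / 10 ∧ |o| ≤ min c0 c1 ∧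
      ∀ i < n, i ∉ S → χ (g * nM z * aM τ * lM o * aM (-(n : ℝ)) * aM (i : ℝ)) ≠ 0} := ⟨_, rfl⟩
  refine ⟨((Finset.range n).powerset.filter fun S : Finset ℕ => S.card ≤ m).image ZS, ?_, ?_, ?_⟩
  · refine le_trans ?_ (hE n m hm1)
    exact_mod_cast Finset.card_image_le
  · rintro z ⟨τ, o, hτ, ho, hcard⟩
    rw [mem_iUnion₂]
    refine ⟨ZS ((Finset.range n).filter fun i : ℕ => χ (g * nM z * aM τ * lM o * aM (-(n : ℝ)) * aM (i : ℝ)) = 0),
      Finset.mem_image_of_mem _ ?_, ?_⟩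
    · rw [Finset.mem_filter, Finset.mem_powerset]
      exact ⟨Finset.filter_subset _ _, hcard⟩
    · rw [hZS]
      exact ⟨τ, o, hτ, ho, fun i hi hiS h0 => hiS (Finset.mem_filter.2 ⟨Finset.mem_range.2 hi, h0⟩)⟩
  · intro Y hY
    obtain ⟨S, hS, rfl⟩ := Finset.mem_image.1 hY
    rw [Finset.mem_filter, Finset.mem_powerset] at hS
    refine ⟨PGB_B n T S, ?_, ?_⟩
    · have h1 : ((PGB_B n T S).card : ℝ) ≤ ((T : ℝ) + 2) * ((S.card : ℝ) + 1) := by exact_mod_cast PGB_card n T S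
      have h2 : (S.card : ℝ) ≤ m := by exact_mod_cast hS.2
      have h3 : ((T : ℝ) + 2) * ((S.card : ℝ) + 1) ≤ ((T : ℝ) + 2) * ((m : ℝ) + 1) :=
        mul_le_mul_of_nonneg_left (by linarith) (by positivity)
      have h4 : ((T : ℝ) + 2) * ((m : ℝ) + 1) = (2 * ((T : ℝ) + 2) * m + 2 * ((T : ℝ) + 2)) / 2 := by ring
      linarith
    · intro k hk hkB r hr1 hr2 v
      have hr0 : 0 < r := (Real.exp_pos _).trans_le hr1
      obtain ⟨s, hs⟩ : ∃ s : ℝ, s = -Real.log r := ⟨_, rfl⟩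
      have hrs : Real.exp (-s) = r := by rw [hs, neg_neg, Real.exp_log hr0]
      rw [← hrs, Real.exp_le_exp] at hr1 hr2
      have hk0 : (0 : ℝ) ≤ k := Nat.cast_nonneg k
      obtain ⟨x, hx, hz⟩ := (hP g s v (by linarith)).2
      rw [hrs] at hx hz
      refine ⟨x, hx, ?_⟩
      rw [Set.disjoint_left]
      intro z hz1 hz2
      rw [hZS] at hz2
      obtain ⟨τ, o, hτ, ho, hne⟩ := hz2
      have hcr : min c0 c1 * r ≤ c1 * r := mul_le_mul_of_nonneg_right (min_le_right _ _) hr0.le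
      obtain ⟨t, ht, htO⟩ := hz z ⟨by linarith [hz1.1], by linarith [hz1.2]⟩
      have ht0 : 0 ≤ t := by linarith [ht.1]
      have hf1 : (⌊t⌋₊ : ℝ) ≤ t := Nat.floor_le ht0
      have hf2 : t < (⌊t⌋₊ : ℝ) + 1 := Nat.lt_floor_add_one t
      -- bounds of the integral part
      have g1 : k ≤ ⌊t⌋₊ := Nat.le_floor (by linarith [ht.1])
      have g2 : ⌊t⌋₊ ≤ k + T + 1 := by
        have h1 : (⌊t⌋₊ : ℝ) ≤ ((k + T + 1 : ℕ) : ℝ) := by
          push_cast
          linarith [ht.2]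
        exact_mod_cast h1
      have hkB' : ¬ (n < k + T + 2 ∨ ∃ i ∈ S, n ≤ i + k + T + 2 ∧ i + k + 1 ≤ n) := by
        intro h
        exact hkB (Finset.mem_filter.2 ⟨Finset.mem_range.2 hk, h⟩)
      rw [not_or] at hkB'
      obtain ⟨hB1, hB2⟩ := hkB'
      have hin : n - (⌊t⌋₊ + 1) < n := by omega
      have hiS : n - (⌊t⌋₊ + 1) ∉ S := fun h => hB2 ⟨_, h, by omega, by omega⟩
      have hcast : ((n - (⌊t⌋₊ + 1) : ℕ) : ℝ) = (n : ℝ) - ((⌊t⌋₊ : ℝ) + 1) := by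
        rw [Nat.cast_sub (by omega)]
        push_cast
        ring
      apply hne _ hin hiS
      rw [PGB_eq ha hl g z τ o t n _ ((⌊t⌋₊ : ℝ) + 1) (by rw [hcast]; ring)]
      apply hχ _ _ _ htO
      · have h1 := abs_le.1 hτ
        rw [abs_le]
        constructor <;> linarith [h1.1, h1.2]
      · rw [abs_mul, Real.abs_exp]
        have h1 : Real.exp (-((⌊t⌋₊ : ℝ) + 1)) ≤ 1 := Real.exp_le_one_iff.2 (by linarith [Nat.cast_nonneg (α := ℝ) ⌊t⌋₊])
        exact (mul_le_of_le_one_left (abs_nonneg _) h1).trans (ho.trans (min_le_left _ _))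

end

end Pool.Agent.FT
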